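import Mathlib
import Pool.Agent.Helper355.TriClass

set_option autoImplicit false

namespace Pool.Agent.Results.MP_17450a_al.Classification

universe u v

/-! ## Statement -/

/-- `B` is trilinear over the complex numbers, so that `(W, B)` is a triple system. -/
structure IsTrilinear {W : Type u} [AddCommGroup W] [Module ℂ W] (B : W → W → W → W) : Prop where
  add₁ : ∀ x x' y z, B (x + x') y z = B x y z + B x' y z
  add₂ : ∀ x y y' z, B x (y + y') z = B x y z + B x y' z
  add₃ : ∀ x y z z', B x y (z + z') = B x y z + B x y z'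
  smul₁ : ∀ (c : ℂ) x y z, B (c • x) y z = c • B x y z
  smul₂ : ∀ (c : ℂ) x y z, B x (c • y) z = c • B x y z
  smul₃ : ∀ (c : ℂ) x y z, B x y (c • z) = c • B x y z

/-- The identities (I1), (I2), (I3). -/
structure Identities {W : Type u} (B : W → W → W → W) : Prop where
  i1 : ∀ x y v u, B x y (B x v u) = B x (B y x v) u
  i2 : ∀ x y z v, B x (B y z v) z = B (B x y z) v z
  i3 : ∀ x y z v, B x y (B z y v) = B (B x y z) y v

/-- Ideals of a triple system. -/
def IsTripleIdeal {W : Type u} [AddCommGroup W] [Module ℂ W] (B : W → W → W → W)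
    (I : Submodule ℂ W) : Prop :=
  ∀ x ∈ I, ∀ y z : W, B x y z ∈ I ∧ B y x z ∈ I ∧ B y z x ∈ I

/-- Simple triple systems: the product is not identically zero and the only ideals are `0`
and `W`. -/
def IsSimpleTriple {W : Type u} [AddCommGroup W] [Module ℂ W] (B : W → W → W → W) : Prop :=
  (∃ x y z : W, B x y z ≠ 0) ∧ ∀ I : Submodule ℂ W, IsTripleIdeal B I → I = ⊥ ∨ I = ⊤

/-- Isomorphism of triple systems. -/
def TripleIso {W : Type u} {W' : Type v} [AddCommGroup W] [Module ℂ W] [AddCommGroup W']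
    [Module ℂ W'] (B : W → W → W → W) (B' : W' → W' → W' → W') : Prop :=
  ∃ φ : W ≃ₗ[ℂ] W', ∀ x y z : W, φ (B x y z) = B' (φ x) (φ y) (φ z)

/-- The product `X Y Z` on `n × n` matrices. -/
def matTriple (n : ℕ) (X Y Z : Matrix (Fin n) (Fin n) ℂ) : Matrix (Fin n) (Fin n) ℂ :=
  X * Y * Z

/-- The space of pairs of a `p × q` matrix and a `q × p` matrix. -/
abbrev PairSpace (p q : ℕ) : Type := Matrix (Fin p) (Fin q) ℂ × Matrix (Fin q) (Fin p) ℂ

/-- The product `((a, a'), (b, b'), (c, c')) ↦ (a b' c, a' b c')` on pairs of matrices. -/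
def pairTriple (p q : ℕ) (X Y Z : PairSpace p q) : PairSpace p q :=
  (X.1 * Y.2 * Z.1, X.2 * Y.1 * Z.2)

/-- The product `X Yᵀ Z` on `r × s` matrices. -/
def trTriple (r s : ℕ) (X Y Z : Matrix (Fin r) (Fin s) ℂ) : Matrix (Fin r) (Fin s) ℂ :=
  X * Y.transpose * Z

/-! ## Sanity checks: the models are triple systems -/

theorem mat_trilinear (n : ℕ) : IsTrilinear (matTriple n) := by
  constructor <;> intros <;> simp [matTriple, mul_add, add_mul]

theorem pair_trilinear (p q : ℕ) : IsTrilinear (pairTriple p q) := by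
  constructor <;> intros <;> simp [pairTriple, Matrix.mul_add, Matrix.add_mul]

/-! ## Proof -/

/-- The bundled trilinear map. -/
def bundle {W : Type u} [AddCommGroup W] [Module ℂ W] (B : W → W → W → W)
    (h : IsTrilinear B) : W →ₗ[ℂ] W →ₗ[ℂ] W →ₗ[ℂ] W where
  toFun x :=
    { toFun := fun y =>
        { toFun := fun z => B x y z
          map_add' := fun z z' => h.add₃ x y z z'
          map_smul' := fun c z => h.smul₃ c x y z }
      map_add' := fun y y' => LinearMap.ext fun z => h.add₂ x y y' z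
      map_smul' := fun c y => LinearMap.ext fun z => h.smul₂ c x y z }
  map_add' := fun x x' => LinearMap.ext fun y => LinearMap.ext fun z => h.add₁ x x' y z
  map_smul' := fun c x => LinearMap.ext fun y => LinearMap.ext fun z => h.smul₁ c x y z

lemma bundle_simple {W : Type u} [AddCommGroup W] [Module ℂ W] (B : W → W → W → W)
    (h : IsTrilinear B) :
    Pool.Agent.Helper355.TriClass.IsSimpleTriple (bundle B h) ↔ IsSimpleTriple B := by
  have e : bundle B h ≠ 0 ↔ ∃ x y z : W, B x y z ≠ 0 := by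
    constructor
    · intro hne
      by_contra hh
      push Not at hh
      exact hne (LinearMap.ext fun x => LinearMap.ext fun y => LinearMap.ext fun z => hh x y z)
    · rintro ⟨x, y, z, hne⟩ h0
      apply hne
      have := congrArg (fun f => f x y z) h0
      exact this
  exact and_congr e Iff.rfl

/-- The classification of the simple triple systems satisfying (I1), (I2), (I3). -/
theorem result :
    (∀ (W : Type u) [AddCommGroup W] [Module ℂ W] [FiniteDimensional ℂ W]
      (B : W → W → W → W), IsTrilinear B →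
      ((IsSimpleTriple B ∧ Identities B) ↔
        ((∃ n : ℕ, 1 ≤ n ∧ TripleIso B (matTriple n)) ∨
         (∃ p q : ℕ, 1 ≤ p ∧ p ≤ q ∧ TripleIso B (pairTriple p q))))) ∧
    (∀ n m : ℕ, TripleIso (matTriple n) (matTriple m) → n = m) ∧
    (∀ p q p' q' : ℕ, 1 ≤ p → p ≤ q → 1 ≤ p' → p' ≤ q' →
      TripleIso (pairTriple p q) (pairTriple p' q') → p = p' ∧ q = q') ∧
    (∀ n p q : ℕ, 1 ≤ p → p ≤ q → ¬ TripleIso (matTriple n) (pairTriple p q)) ∧
    (∀ r s : ℕ, 1 ≤ r → 1 ≤ s → Identities (trTriple r s) → r = 1 ∧ s = 1) := by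
  have key := Pool.Agent.Helper355.TriClass.classification.{u}
  refine ⟨?_, key.2.1, key.2.2.1, key.2.2.2.1, ?_⟩
  · intro W _ _ _ B hB
    have kB := key.1 W (bundle B hB)
    rw [bundle_simple] at kB
    constructor
    · rintro ⟨hs, h⟩
      exact kB.mp ⟨hs, ⟨h.i1, h.i2, h.i3⟩⟩
    · intro h
      obtain ⟨hs, h2⟩ := kB.mpr h
      exact ⟨hs, ⟨h2.i1, h2.i2, h2.i3⟩⟩
  · intro r s hr hs h
    exact key.2.2.2.2 r s hr hs ⟨h.i1, h.i2, h.i3⟩

end Pool.Agent.Results.MP_17450a_al.Classification
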